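import Pool.Agent.helper37.NE.SpecA

set_option autoImplicit false

namespace Pool.Agent.NE

open Pool.Agent.helper58.DC Pool.Agent.DI Pool.Agent.GR Pool.Agent.OB Pool.Agent.DR Pool.Agent.FI Pool.Agent.FI3 Pool.Agent.FI4 Pool.Agent.FI4I Pool.Agent.LE Pool.Agent.L5 Pool.Agent.NAB Pool.Agent.ND

theorem YSN_van {G : Type} [Group G] {N H : Subgroup G} (hH : H ≤ N) {ψ : G → ℂ} (hψ : ψ ∈ IrrOn H) :
    ∀ x, x ∉ N → ψ x = 0 := fun x hx => hψ.1 x (fun h => hx (hH h))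

theorem YSN_cj {G : Type} [Group G] {N : Subgroup G} {n : G} (hn : n ∈ N) {ψ : G → ℂ} (hψ : ∀ x, x ∉ N → ψ x = 0) :
    ∀ x, x ∉ N → cjF n ψ x = 0 := by
  intro x hx
  have h1 : cjF n ψ x = ψ (n⁻¹ * x * n) := by
    unfold cjF funMap
    simp [MulAut.conj_symm_apply]
  rw [h1]
  apply hψ
  intro h
  apply hx
  have h2 : x = n * (n⁻¹ * x * n) * n⁻¹ := by group
  rw [h2]
  exact N.mul_mem (N.mul_mem hn h) (N.inv_mem hn)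

theorem YSN_st {G : Type} [Group G] {N Z : Subgroup G} {t : ℕ} (ν : Z →* ℂˣ) {θ : G → ℂ} (hθ : ∀ x, x ∉ N → θ x = 0) :
    ∀ x, x ∉ N → st Z t ν θ x = 0 := by
  intro x hx
  unfold st
  rw [hθ x hx, mul_zero]

theorem YSN_inj {G : Type} [Group G] {N : Subgroup G} {ψ ψ' : G → ℂ} (h1 : ∀ x, x ∉ N → ψ x = 0) (h2 : ∀ x, x ∉ N → ψ' x = 0)
    (h : rN N ψ = rN N ψ') : ψ = ψ' := by
  funext x
  by_cases hx : x ∈ N
  · exact congrFun h ⟨x, hx⟩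
  · rw [h1 x hx, h2 x hx]

theorem YSN (hYST : YST_stmt) (hYTR : YTR_stmt) (hTR1 : TR1_stmt) (hTR2 : TR2_stmt) (hTR3 : TR3_stmt) (hNTK : NTK_stmt)
    (hNEG : NEG_stmt) : YSN_stmt := by
  classical
  intro p e m t M hM G _ _ N χ Z z x hZ
  have hzN : z ∈ N := hZ.uc.zm
  have hxN : x ∈ N := hZ.uc.xm
  have hZN : Z ≤ N := by
    rw [← hZ.zz]
    unfold Zg
    rw [Subgroup.zpowers_le]
    exact N.pow_mem hzN _
  obtain ⟨t1, t2, t3, ⟨t4, t5⟩, t6, t7, t8, t9, t10⟩ := hYTR p e m t M hM G N Z hZN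
  have htop : N.subgroupOf N = ⊤ := Subgroup.subgroupOf_self N
  have hχN : ∀ y, y ∉ N → χ y = 0 := YSN_van le_rfl hZ.ch
  obtain ⟨b1, b2, b3⟩ := hTR1 G N N le_rfl
  have hEg : ∀ y : N, Eg p e y = (Eg p e (y : G)).subgroupOf N := fun y =>
    ((hNEG p e hM.pr G z).2.2.2.2.2.2 N y).symm
  have hE : Eg p e z ≤ N := (hNEG p e hM.pr G z).2.1 N hzN
  have hnE : (⊤ ⊓ nz (Eg p e (⟨z, hzN⟩ : N)) : Subgroup N) = (N ⊓ nz (Eg p e z)).subgroupOf N := by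
    rw [top_inf_eq, hEg, ((hTR3 p G N).1 (Eg p e z) hE).2, Subgroup.inf_subgroupOf_left]
  have hcz : (⊤ ⊓ cz (Z.subgroupOf N) : Subgroup N) = (N ⊓ cz Z).subgroupOf N := by
    rw [top_inf_eq, t4]
  have hnz : (⊤ ⊓ nz (Z.subgroupOf N) : Subgroup N) = (N ⊓ nz Z).subgroupOf N := by
    rw [top_inf_eq, t5]
  have hχ' : rN N χ ∈ IrrOn (⊤ : Subgroup N) := by
    have h := (b1 χ hχN).1 hZ.ch
    rwa [htop] at h
  have hU' : Ucl p e m M (⊤ : Subgroup N) (rN N χ) ⟨z, hzN⟩ ⟨x, hxN⟩ := by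
    have h := (hNTK p e m M G N N le_rfl χ hχN ⟨z, hzN⟩ ⟨x, hxN⟩).2 hZ.uc
    rwa [htop] at h
  have hZ' : ZN p e m t M (⊤ : Subgroup N) (rN N χ) (Z.subgroupOf N) ⟨z, hzN⟩ ⟨x, hxN⟩ :=
    ⟨hZ.em, hZ.eb, t1 hZ.tx, hχ', hU', by rw [t2, hZ.zz]⟩
  have hS := hYST p e m t M hM N (rN N χ) (Z.subgroupOf N) ⟨z, hzN⟩ ⟨x, hxN⟩ hZ'
  have hCN : N ⊓ cz Z ≤ N := inf_le_left
  have hKN : N ⊓ nz (Eg p e z) ≤ N := inf_le_left
  -- the sets GN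
  have gN : ∀ L ≤ N, ∀ ψ : G → ℂ, (∀ y, y ∉ N → ψ y = 0) →
      (ψ ∈ GN p e m M N χ L Z ↔ rN N ψ ∈ GN p e m M (⊤ : Subgroup N) (rN N χ) (L.subgroupOf N) (Z.subgroupOf N)) :=
    fun L hL ψ hψ => t6 χ hχN L hL ψ hψ
  have gV : ∀ L ≤ N, ∀ ψ : G → ℂ, ψ ∈ GN p e m M N χ L Z → ∀ y, y ∉ N → ψ y = 0 :=
    fun L hL ψ hψ => YSN_van hL hψ.1
  have gC : ∀ ψ : G → ℂ, (∀ y, y ∉ N → ψ y = 0) →
      (ψ ∈ GN p e m M N χ (N ⊓ cz Z) Z ↔ rN N ψ ∈ GN p e m M (⊤ : Subgroup N) (rN N χ) (⊤ ⊓ cz (Z.subgroupOf N)) (Z.subgroupOf N)) := by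
    intro ψ hψ
    rw [hcz]
    exact gN _ hCN ψ hψ
  have gCs : ∀ θ' ∈ GN p e m M (⊤ : Subgroup N) (rN N χ) (⊤ ⊓ cz (Z.subgroupOf N)) (Z.subgroupOf N),
      ∃ θ ∈ GN p e m M N χ (N ⊓ cz Z) Z, rN N θ = θ' := by
    intro θ' hθ'
    have h1 : θ' ∈ IrrOn ((N ⊓ cz Z).subgroupOf N) := by
      rw [← hcz]; exact hθ'.1
    obtain ⟨θ, h2, rfl⟩ := t10 _ hCN θ' h1
    exact ⟨θ, (gC θ (YSN_van hCN h2)).2 hθ', rfl⟩
  -- the homomorphisms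
  have nuS : ∀ ν' : (Z.subgroupOf N) →* ℂˣ, ∃ ν : Z →* ℂˣ, ν.comp (Subgroup.subgroupOfEquivOfLe hZN).toMonoidHom = ν' := by
    intro ν'
    refine ⟨ν'.comp (Subgroup.subgroupOfEquivOfLe hZN).symm.toMonoidHom, ?_⟩
    ext y
    simp
  -- mt
  have mtC : ∀ φ ψ : G → ℂ, mt (⊤ ⊓ cz (Z.subgroupOf N) : Subgroup N) (rN N φ) (rN N ψ) = mt (N ⊓ cz Z) φ ψ := by
    intro φ ψ
    rw [hcz]
    exact t7 _ hCN φ ψ
  -- orbits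
  have oH : ∀ θ₀ θ : G → ℂ, (∀ y, y ∉ N → θ₀ y = 0) → (∀ y, y ∉ N → θ y = 0) →
      iH (⊤ : Subgroup N) (Z.subgroupOf N) (rN N θ₀) (rN N θ) = iH N Z θ₀ θ := by
    intro θ₀ θ h0 h1
    have hiff : (∃ h ∈ (⊤ : Subgroup N) ⊓ nz (Z.subgroupOf N), cjF h (rN N θ₀) = rN N θ) ↔ (∃ h ∈ N ⊓ nz Z, cjF h θ₀ = θ) := by
      constructor
      · rintro ⟨h, hh, hc⟩
        rw [hnz, Subgroup.mem_subgroupOf] at hh
        refine ⟨h, hh, ?_⟩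
        rw [t8] at hc
        exact YSN_inj (YSN_cj h.2 h0) h1 hc
      · rintro ⟨h, hh, hc⟩
        refine ⟨⟨h, hh.1⟩, ?_, ?_⟩
        · rw [hnz, Subgroup.mem_subgroupOf]; exact hh
        · rw [t8, hc]
    unfold iH
    simp only [hiff]
  have rW : ∀ ψ θ₀ : G → ℂ, (∀ y, y ∉ N → ψ y = 0) → (∀ y, y ∉ N → θ₀ y = 0) → ∀ ε : ℂ,
      (Rw p e m t M (⊤ : Subgroup N) (rN N χ) (Z.subgroupOf N) (rN N ψ) (rN N θ₀) ε ↔ Rw p e m t M N χ Z ψ θ₀ ε) := by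
    intro ψ θ₀ hψ h0 ε
    constructor
    · intro h θ hθ ν
      have hθN := gV _ hCN θ hθ
      have h1 := h (rN N θ) ((gC θ hθN).1 hθ) (ν.comp (Subgroup.subgroupOfEquivOfLe hZN).toMonoidHom)
      rw [t3, mtC, mtC, oH θ₀ θ h0 hθN, oH θ₀ _ h0 (YSN_st ν hθN)] at h1
      exact h1
    · intro h θ' hθ' ν'
      obtain ⟨θ, hθ, rfl⟩ := gCs θ' hθ'
      obtain ⟨ν, rfl⟩ := nuS ν'
      have hθN := gV _ hCN θ hθ
      rw [t3, mtC, mtC, oH θ₀ θ h0 hθN, oH θ₀ _ h0 (YSN_st ν hθN)]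
      exact h θ hθ ν
  have fF : ∀ L ≤ N, ∀ ψ θ₀ : G → ℂ, (∀ y, y ∉ N → ψ y = 0) → (∀ y, y ∉ N → θ₀ y = 0) →
      (rN N ψ ∈ FF p e m t M (⊤ : Subgroup N) (rN N χ) (Z.subgroupOf N) (L.subgroupOf N) (rN N θ₀) ↔ ψ ∈ FF p e m t M N χ Z L θ₀) := by
    intro L hL ψ θ₀ hψ h0
    constructor
    · rintro ⟨h1, ε, h2, h3⟩
      exact ⟨(gN L hL ψ hψ).2 h1, ε, h2, (rW ψ θ₀ hψ h0 ε).1 h3⟩
    · rintro ⟨h1, ε, h2, h3⟩
      exact ⟨(gN L hL ψ hψ).1 h1, ε, h2, (rW ψ θ₀ hψ h0 ε).2 h3⟩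
  have l2 : ∀ L, L2 p e N z L → L ≤ N ∧ L2 p e (⊤ : Subgroup N) ⟨z, hzN⟩ (L.subgroupOf N) := by
    rintro L (rfl | rfl)
    · exact ⟨le_rfl, Or.inl htop⟩
    · exact ⟨hKN, Or.inr hnE.symm⟩
  refine ⟨?_, ?_, ?_, ?_, ?_, ?_, ?_⟩
  · intro L hL ψ hψ
    obtain ⟨hLN, hL'⟩ := l2 L hL
    have hψN := gV L hLN ψ hψ
    obtain ⟨θ', h1, h2⟩ := hS.ex _ hL' (rN N ψ) ((gN L hLN ψ hψN).1 hψ)
    obtain ⟨θ, hθ, rfl⟩ := gCs θ' h1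
    exact ⟨θ, hθ, (fF L hLN ψ θ hψN (gV _ hCN θ hθ)).1 h2⟩
  · intro L hL θ₀ h0
    obtain ⟨hLN, hL'⟩ := l2 L hL
    have h0N := gV _ hCN θ₀ h0
    have h1 := hS.ct _ hL' (rN N θ₀) ((gC θ₀ h0N).1 h0)
    have h2 : Nat.card (⊤ ⊓ cz (Z.subgroupOf N) : Subgroup N) = Nat.card (N ⊓ cz Z : Subgroup G) := by
      rw [hcz]
      exact Nat.card_congr (Subgroup.subgroupOfEquivOfLe hCN).toEquiv
    have h3 : FF p e m t M (⊤ : Subgroup N) (rN N χ) (Z.subgroupOf N) (L.subgroupOf N) (rN N θ₀) =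
        rN N '' FF p e m t M N χ Z L θ₀ := by
      ext ψ'
      constructor
      · intro h
        obtain ⟨ψ, h4, rfl⟩ := t10 L hLN ψ' h.1.1
        exact ⟨ψ, (fF L hLN ψ θ₀ (YSN_van hLN h4) h0N).1 h, rfl⟩
      · rintro ⟨ψ, h4, rfl⟩
        exact (fF L hLN ψ θ₀ (gV L hLN ψ h4.1) h0N).2 h4
    have h4 : (FF p e m t M (⊤ : Subgroup N) (rN N χ) (Z.subgroupOf N) (L.subgroupOf N) (rN N θ₀)).ncard =
        (FF p e m t M N χ Z L θ₀).ncard := by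
      rw [h3]
      apply Set.InjOn.ncard_image
      intro ψ hψ ψ' hψ' he
      exact YSN_inj (gV L hLN ψ hψ.1) (gV L hLN ψ' hψ'.1) he
    have hmem : ∀ y : N, y ∈ (⊤ : Subgroup N) ⊓ nz (Z.subgroupOf N) ↔ (y : G) ∈ N ⊓ nz Z := by
      intro y
      rw [hnz, Subgroup.mem_subgroupOf]
    have h5 : Nat.card {h : N // h ∈ (⊤ : Subgroup N) ⊓ nz (Z.subgroupOf N) ∧ cjF h (rN N θ₀) = rN N θ₀} =
        Nat.card {h : G // h ∈ N ⊓ nz Z ∧ cjF h θ₀ = θ₀} := by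
      refine Nat.card_congr ⟨fun h => ⟨(h.1 : G), ?_, ?_⟩, fun h => ⟨⟨h.1, h.2.1.1⟩, ?_, ?_⟩, ?_, ?_⟩
      · exact (hmem h.1).1 h.2.1
      · have h6 : cjF h.1 (rN N θ₀) = rN N θ₀ := h.2.2
        rw [t8] at h6
        exact YSN_inj (YSN_cj h.1.2 h0N) h0N h6
      · exact (hmem _).2 h.2.1
      · rw [t8, h.2.2]
      · intro h; rfl
      · intro h; rfl
    rw [h2, h4, h5] at h1
    exact h1
  · intro θ₀ h0 ψ hψ ψ₁ hψ₁ d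
    have h0N := gV _ hCN θ₀ h0
    have hψN := gV N le_rfl ψ hψ.1
    have hψ₁N := gV _ hKN ψ₁ hψ₁.1
    have h1 : rN N ψ ∈ FF p e m t M (⊤ : Subgroup N) (rN N χ) (Z.subgroupOf N) (⊤ : Subgroup N) (rN N θ₀) := by
      have h := (fF N le_rfl ψ θ₀ hψN h0N).2 hψ
      rwa [htop] at h
    have h2 : rN N ψ₁ ∈ FF p e m t M (⊤ : Subgroup N) (rN N χ) (Z.subgroupOf N) (⊤ ⊓ nz (Eg p e (⟨z, hzN⟩ : N))) (rN N θ₀) := by
      rw [hnE]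
      exact (fF _ hKN ψ₁ θ₀ hψ₁N h0N).2 hψ₁
    have h3 := hS.df (rN N θ₀) ((gC θ₀ h0N).1 h0) (rN N ψ) h1 (rN N ψ₁) h2 d
    rw [hnE, t9 _ hKN ψ₁ d, ← htop, t9 N le_rfl ψ d] at h3
    exact h3
  · intro L hCL hLN ψ hψ hψn θ hθ ν
    have hψN := YSN_van hLN hψ
    have hθN := gV _ hCN θ hθ
    have h1 : (⊤ ⊓ cz (Z.subgroupOf N) : Subgroup N) ≤ L.subgroupOf N := by
      rw [hcz]
      intro y hy
      rw [Subgroup.mem_subgroupOf] at hy ⊢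
      exact hCL hy
    have h2 : rN N ψ ∈ IrrOn (L.subgroupOf N) := ((hTR1 G N L hLN).1 ψ hψN).1 hψ
    have h3 : rN N ψ ∉ GN p e m M (⊤ : Subgroup N) (rN N χ) (L.subgroupOf N) (Z.subgroupOf N) := by
      intro h
      exact hψn ((gN L hLN ψ hψN).2 h)
    have h4 := hS.ou _ h1 le_top (rN N ψ) h2 h3 (rN N θ) ((gC θ hθN).1 hθ) (ν.comp (Subgroup.subgroupOfEquivOfLe hZN).toMonoidHom)
    rw [t3, mtC, mtC] at h4
    exact h4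
  · intro θ hθ ν
    have hθN := gV _ hCN θ hθ
    have h1 := hS.sm (rN N θ) ((gC θ hθN).1 hθ) (ν.comp (Subgroup.subgroupOfEquivOfLe hZN).toMonoidHom)
    rw [t3] at h1
    refine ⟨(gC _ (YSN_st ν hθN)).2 h1.1, ?_⟩
    have h2 := h1.2
    rw [hcz] at h2
    exact ((hTR2 G M N).2.1 _ hCN _ _ (YSN_st ν hθN) hθN).2 h2
  · intro θ hθ
    have hθN := gV _ hCN θ hθ
    have h1 := hS.sz (rN N θ) ((gC θ hθN).1 hθ)
    have hoV : ∀ θ' : G → ℂ, orb Z t θ θ' → ∀ y, y ∉ N → θ' y = 0 := by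
      rintro θ' ⟨ν, rfl⟩
      exact YSN_st ν hθN
    have hof : ∀ θ' : G → ℂ, orb Z t θ θ' → orb (Z.subgroupOf N) t (rN N θ) (rN N θ') := by
      rintro θ' ⟨ν, rfl⟩
      exact ⟨ν.comp (Subgroup.subgroupOfEquivOfLe hZN).toMonoidHom, (t3 ν θ).symm⟩
    have hbij : Function.Bijective (fun θ' : {θ' : G → ℂ // orb Z t θ θ'} =>
        (⟨rN N θ'.1, hof θ'.1 θ'.2⟩ : {θ' : N → ℂ // orb (Z.subgroupOf N) t (rN N θ) θ'})) := by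
      constructor
      · intro a b hab
        apply Subtype.ext
        exact YSN_inj (hoV a.1 a.2) (hoV b.1 b.2) (congrArg Subtype.val hab)
      · rintro ⟨θ', ν', rfl⟩
        obtain ⟨ν, rfl⟩ := nuS ν'
        refine ⟨⟨st Z t ν θ, ν, rfl⟩, ?_⟩
        apply Subtype.ext
        exact (t3 ν θ).symm
    have he := Equiv.ofBijective _ hbij
    have := h1.1
    refine ⟨Finite.of_equiv _ he.symm, ?_⟩
    rw [Nat.card_congr he]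
    exact h1.2
  · intro θ hθ n hn hs k hk
    have hθN := gV _ hCN θ hθ
    have h1 := hS.fx (rN N θ) ((gC θ hθN).1 hθ) ⟨n, hn.1⟩ (by rw [hnz, Subgroup.mem_subgroupOf]; exact hn) (by
      rw [hcz, t8]
      exact ((hTR2 G M N).2.1 _ hCN _ _ (YSN_cj hn.1 hθN) hθN).1 hs) k (by
      rw [t4, Subgroup.mem_subgroupOf]
      exact ⟨N.pow_mem hn.1 _, hk⟩)
    rw [t4, Subgroup.mem_subgroupOf] at h1
    exact h1.2

end Pool.Agent.NE
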